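import Pool.Agent.Lib.MP_947a32_pr.Final

set_option autoImplicit false

open MeasureTheory

namespace Pool.Agent.Results.MP_947a32_pr.UniformLabels

/-- Labels: a point of `[0,1]` at every vertex. -/
abbrev Labels (V : Type) : Type := V → unitInterval

/-- The law of iid labels, each uniform on `[0,1]`. -/
noncomputable def iidUniform (V : Type) : Measure (Labels V) :=
  Measure.infinitePi (fun _ : V => (volume : Measure unitInterval))

/-- Edge configurations, elements of `{0,1}^E`. -/
abbrev Config {V : Type} (G : SimpleGraph V) : Type := G.edgeSet → Bool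

/-- The action of an automorphism on labels. -/
def moveLabels {V : Type} {G : SimpleGraph V} (φ : G ≃g G) (ω : Labels V) : Labels V :=
  fun v => ω (φ.symm v)

/-- The action of an automorphism on edge configurations. -/
def moveConfig {V : Type} {G : SimpleGraph V} (φ : G ≃g G) (x : Config G) : Config G :=
  fun e => x (φ.symm.mapEdgeSet e)

/-- `x` is the indicator of a perfect matching: every vertex lies in exactly one chosen edge. -/
def IsPerfectMatching {V : Type} {G : SimpleGraph V} (x : Config G) : Prop :=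
  ∀ v : V, ∃! e : G.edgeSet, v ∈ (e : Sym2 V) ∧ x e = true

/-- `F` is a factor of iid perfect matching. -/
structure IsFactorPerfectMatching {V : Type} (G : SimpleGraph V)
    (F : Labels V → Config G) : Prop where
  measurable : Measurable F
  equivariant : ∀ (φ : G ≃g G) (ω : Labels V), F (moveLabels φ ω) = moveConfig φ (F ω)
  perfect : ∀ᵐ ω ∂(iidUniform V), IsPerfectMatching (F ω)

/-- Every `ω'` that agrees with `ω` on the ball of radius `r` around `o` has the same chosen
edges at `o`. -/
def DeterminedBy {V : Type} {G : SimpleGraph V} (F : Labels V → Config G) (o : V)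
    (ω : Labels V) (r : ℕ) : Prop :=
  ∀ ω' : Labels V, (∀ u : V, G.dist o u ≤ r → ω' u = ω u) →
    ∀ e : G.edgeSet, o ∈ (e : Sym2 V) → F ω' e = F ω e

/-- The coding radius of `F` at `o` (`⊤` if there is none). -/
noncomputable def codingRadius {V : Type} {G : SimpleGraph V} (F : Labels V → Config G) (o : V)
    (ω : Labels V) : ℕ∞ :=
  sInf {r : ℕ∞ | ∃ n : ℕ, r = (n : ℕ∞) ∧ DeterminedBy F o ω n}

/-- edge configuration of a partner map -/
noncomputable def ofPartner {V : Type} (f : V → V) : Sym2 V → Bool := by
  classical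
  exact Sym2.lift ⟨fun v w => decide (f v = w ∧ f w = v), fun v w => by
    simp only [and_comm]⟩

theorem ofPartner_mk {V : Type} (f : V → V) (v w : V) :
    ofPartner f s(v, w) = true ↔ f v = w ∧ f w = v := by
  classical
  unfold ofPartner
  simp

/-- **Main theorem.** For every `Δ ≥ 3` the `Δ`-regular tree has a finitary factor of iid perfect
matching, with labels uniform on `[0,1]`. -/
theorem result : ∀ Δ : ℕ, 3 ≤ Δ → ∀ (V : Type) (G : SimpleGraph V) [G.LocallyFinite],
    G.IsTree → G.IsRegularOfDegree Δ →
      ∃ F : Labels V → Config G, IsFactorPerfectMatching G F ∧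
        ∀ o : V, ∀ᵐ ω ∂(iidUniform V), codingRadius F o ω < ⊤ := by
  classical
  intro Δ hΔ V G _ hG hreg
  have hreg' : ∀ v : V, (G.neighborSet v).encard = ((Δ : ℕ) : ℕ∞) := by
    intro v
    have h1 := hreg v
    rw [← SimpleGraph.card_neighborSet_eq_degree] at h1
    rw [Set.encard_eq_coe_toFinset_card, Set.toFinset_card, h1]
  obtain ⟨μ, hμ, F0, hm, he, hp, hf⟩ := Pool.Agent.PM.final Δ hΔ V G hG hreg'
  obtain ⟨T, hT, hTμ⟩ := MeasureTheory.Measure.exists_measurable_map_eq μ
  -- transport of labels
  have hlaw : (iidUniform V).map (fun ω (v : V) => T (ω v)) =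
      Measure.infinitePi (fun _ : V => μ) := by
    have h1 := Measure.infinitePi_map_pi (μ := fun _ : V => (volume : Measure unitInterval))
      (f := fun _ : V => T) (fun _ => hT)
    unfold iidUniform
    rw [h1]
    simp only [hTμ]
  have hTm : Measurable (fun (ω : Labels V) (v : V) => T (ω v)) :=
    measurable_pi_lambda _ fun v => hT.comp (measurable_pi_apply v)
  have hp' : ∀ᵐ ω ∂(iidUniform V), ∀ v : V,
      G.Adj v (F0 (fun u => T (ω u)) v) ∧
        F0 (fun u => T (ω u)) (F0 (fun u => T (ω u)) v) = v := by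
    rw [← hlaw] at hp
    exact ae_of_ae_map hTm.aemeasurable hp
  have hf' : ∀ᵐ ω ∂(iidUniform V), ∀ v : V, ∃ r : ℕ, ∀ ω' : V → ℝ,
      (∀ u : V, G.dist v u ≤ r → ω' u = T (ω u)) → F0 ω' v = F0 (fun u => T (ω u)) v := by
    rw [← hlaw] at hf
    exact ae_of_ae_map hTm.aemeasurable hf
  refine ⟨fun ω e => ofPartner (F0 (fun u => T (ω u))) (e : Sym2 V), ⟨?_, ?_, ?_⟩, ?_⟩
  · -- measurability
    refine measurable_pi_lambda _ fun e => ?_
    obtain ⟨e, hee⟩ := e
    induction e using Sym2.ind with
    | _ v w =>
      refine measurable_to_bool ?_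
      have h1 : ((fun ω : Labels V => ofPartner (F0 (fun u => T (ω u))) s(v, w)) ⁻¹' {true}) =
          (fun (ω : Labels V) (u : V) => T (ω u)) ⁻¹'
            ({ω | F0 ω v = w} ∩ {ω | F0 ω w = v}) := by
        ext ω
        simp only [Set.mem_preimage, Set.mem_singleton_iff, ofPartner_mk, Set.mem_inter_iff,
          Set.mem_ofPred_eq]
      rw [h1]
      exact hTm ((hm v w).inter (hm w v))
  · -- equivariance
    intro φ ω
    funext e
    obtain ⟨e, hee⟩ := e
    induction e using Sym2.ind with
    | _ v w =>
      have h0 : ((φ.symm.mapEdgeSet ⟨s(v, w), hee⟩ : G.edgeSet) : Sym2 V) =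
          s(φ.symm v, φ.symm w) := rfl
      unfold moveConfig moveLabels
      rw [Bool.eq_iff_iff]
      simp only [h0, ofPartner_mk]
      have h1 : ∀ v : V, F0 (fun u => T (ω (φ.symm u))) v =
          φ (F0 (fun u => T (ω u)) (φ.symm v)) := by
        intro v
        have h2 := he φ (fun u => T (ω u)) (φ.symm v)
        rw [RelIso.apply_symm_apply] at h2
        exact h2
      rw [h1 v, h1 w]
      constructor
      · rintro ⟨h2, h3⟩
        refine ⟨?_, ?_⟩
        · rw [← h2, RelIso.symm_apply_apply]
        · rw [← h3, RelIso.symm_apply_apply]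
      · rintro ⟨h2, h3⟩
        refine ⟨?_, ?_⟩
        · rw [h2, RelIso.apply_symm_apply]
        · rw [h3, RelIso.apply_symm_apply]
  · -- perfect matching
    filter_upwards [hp'] with ω hω
    intro v
    refine ⟨⟨s(v, F0 (fun u => T (ω u)) v), (hω v).1⟩, ⟨?_, ?_⟩, ?_⟩
    · exact Sym2.mem_mk_left _ _
    · exact (ofPartner_mk _ _ _).2 ⟨rfl, (hω v).2⟩
    · rintro ⟨e, hee⟩ ⟨h1, h2⟩
      apply Subtype.ext
      obtain ⟨w, rfl⟩ := Sym2.mem_iff_exists.1 h1
      have h3 := (ofPartner_mk _ _ _).1 h2
      change s(v, w) = s(v, _)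
      rw [h3.1]
  · -- coding radius
    intro o
    filter_upwards [hf'] with ω hω
    choose r hr using hω
    have hD : DeterminedBy (G := G)
        (fun ω e => ofPartner (F0 (fun u => T (ω u))) (e : Sym2 V)) o ω
        (max (r o) ((G.neighborFinset o).sup (fun w => r w + 1))) := by
      intro ω' hω' e hoe
      obtain ⟨e, hee⟩ := e
      obtain ⟨w, rfl⟩ := Sym2.mem_iff_exists.1 hoe
      have hadj : G.Adj o w := hee
      have h1 : F0 (fun u => T (ω' u)) o = F0 (fun u => T (ω u)) o := by
        refine hr o _ fun u hu => ?_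
        have h2 := hω' u (hu.trans (le_max_left _ _))
        simp only [h2]
      have h2 : F0 (fun u => T (ω' u)) w = F0 (fun u => T (ω u)) w := by
        refine hr w _ fun u hu => ?_
        have h3 : r w + 1 ≤ (G.neighborFinset o).sup (fun w => r w + 1) :=
          Finset.le_sup (f := fun w => r w + 1) ((G.mem_neighborFinset o w).2 hadj)
        have h4 : G.dist o u ≤ G.dist o w + G.dist w u := hG.connected.dist_triangle
        have h5 : G.dist o w = 1 := SimpleGraph.dist_eq_one_iff_adj.2 hadj
        have h6 := hω' u (le_trans (by omega) (h3.trans (le_max_right _ _)))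
        simp only [h6]
      change ofPartner (F0 (fun u => T (ω' u))) s(o, w) = ofPartner (F0 (fun u => T (ω u))) s(o, w)
      rw [Bool.eq_iff_iff, ofPartner_mk, ofPartner_mk, h1, h2]
    refine lt_of_le_of_lt (sInf_le ⟨_, rfl, hD⟩) ?_
    exact ENat.natCast_lt_top _

end Pool.Agent.Results.MP_947a32_pr.UniformLabels
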